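import Mathlib
import Pool.Agent.MP_1195b1_lc.FF.Main

/-!
# Skew-supermodular colouring with two class sizes: a min-max characterisation
-/

namespace Pool.Agent.Results.MP_1195b1_lc.MinMax

variable {α : Type*} [DecidableEq α]

/-- `p` is skew-supermodular on the subsets of `S`. -/
def SkewSupermodular (S : Finset α) (p : Finset α → ℤ) : Prop :=
  ∀ X ⊆ S, ∀ Y ⊆ S, p X + p Y ≤ p (X ∩ Y) + p (X ∪ Y) ∨ p X + p Y ≤ p (X \ Y) + p (Y \ X)

/-- There is a partition of `S` into `m₁` classes of size `n₁` and `m₂` classes of size `n₂` such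
that every `X ⊆ S` meets at least `max (p₁ X) (p₂ X)` classes. -/
def Feasible (S : Finset α) (m₁ n₁ m₂ n₂ : ℕ) (p₁ p₂ : Finset α → ℤ) : Prop :=
  ∃ P : Finpartition S, ∃ A ⊆ P.parts, A.card = m₁ ∧ (∀ Y ∈ A, Y.card = n₁) ∧
    (P.parts \ A).card = m₂ ∧ (∀ Y ∈ P.parts \ A, Y.card = n₂) ∧
    ∀ X ⊆ S, max (p₁ X) (p₂ X) ≤ ((P.parts.filter fun Y => (Y ∩ X).Nonempty).card : ℤ)

/-- `𝒳` is a family of pairwise disjoint subsets of `S`. -/
def Subpartition (S : Finset α) (𝒳 : Finset (Finset α)) : Prop :=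
  (∀ X ∈ 𝒳, X ⊆ S) ∧ ∀ X ∈ 𝒳, ∀ Y ∈ 𝒳, X ≠ Y → Disjoint X Y

open Pool.Agent.MP_1195b1_lc

/-- For `n₁ ≤ n₂` a feasible partition exists if and only if the small classes, which have
`m₁ n₁` elements in total, are not overloaded by any two subpartitions. -/
theorem result {α : Type*} [DecidableEq α] (S : Finset α) (m₁ n₁ m₂ n₂ : ℕ)
    (p₁ p₂ : Finset α → ℤ) (hm : 0 < m₁) (hn : 0 < n₁) (hle : n₁ ≤ n₂)
    (hS : m₁ * n₁ + m₂ * n₂ = S.card) (h₁ : SkewSupermodular S p₁) (h₂ : SkewSupermodular S p₂)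
    (hb : ∀ X ⊆ S, max (p₁ X) (p₂ X) ≤ min (X.card : ℤ) (m₁ + m₂ : ℕ)) :
    Feasible S m₁ n₁ m₂ n₂ p₁ p₂ ↔
      ∀ 𝒳 𝒴 : Finset (Finset α), Subpartition S 𝒳 → Subpartition S 𝒴 →
        ∑ X ∈ 𝒳, (p₁ X - m₂) + ∑ Y ∈ 𝒴, (p₂ Y - m₂) ≤
          (m₁ * n₁ : ℕ) + ((𝒳.biUnion id ∩ 𝒴.biUnion id).card : ℤ) := by
  let I : Inst α := ⟨S, fun i => bif i then p₂ else p₁, m₁, m₂⟩
  have hI : I.Ok := fun i => by
    cases i
    · exact ⟨h₁, fun X hX => le_min_iff.1 ((le_max_left _ _).trans (hb X hX))⟩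
    · exact ⟨h₂, fun X hX => le_min_iff.1 ((le_max_right _ _).trans (hb X hX))⟩
  refine Iff.trans ?_ (FF.main hI (Nat.add_pos_left hm _) hn hle hS)
  refine exists_congr fun P => exists_congr fun A => and_congr Iff.rfl <| and_congr Iff.rfl <|
    and_congr Iff.rfl <| and_congr Iff.rfl <| and_congr Iff.rfl ?_
  simp only [Bool.forall_bool, max_le_iff, cnt]
  exact ⟨fun h => ⟨fun X hX => (h X hX).1, fun X hX => (h X hX).2⟩,
    fun h X hX => ⟨h.1 X hX, h.2 X hX⟩⟩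

end Pool.Agent.Results.MP_1195b1_lc.MinMax
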