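import Pool.Agent.MP_1195b1_lc.Value

/-!
# Skew-supermodular colouring with two class sizes: the answer in both oracle models
-/

namespace Pool.Agent.Results.MP_1195b1_lc.OracleModels

/-- `p` is skew-supermodular on the subsets of `S`. -/
def SkewSupermodular (S : Finset ℕ) (p : Finset ℕ → ℤ) : Prop :=
  ∀ X ⊆ S, ∀ Y ⊆ S, p X + p Y ≤ p (X ∩ Y) + p (X ∪ Y) ∨ p X + p Y ≤ p (X \ Y) + p (Y \ X)

/-- `p` is intersecting supermodular on the subsets of `S`. -/
def IntersectingSupermodular (S : Finset ℕ) (p : Finset ℕ → ℤ) : Prop :=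
  ∀ X ⊆ S, ∀ Y ⊆ S, (X ∩ Y).Nonempty → p X + p Y ≤ p (X ∩ Y) + p (X ∪ Y)

/-- There is a partition of `S` into `m₁` classes of size `n₁` and `m₂` classes of size `n₂` such
that every `X ⊆ S` meets at least `max (p₁ X) (p₂ X)` classes. -/
def Feasible (S : Finset ℕ) (m₁ n₁ m₂ n₂ : ℕ) (p₁ p₂ : Finset ℕ → ℤ) : Prop :=
  ∃ P : Finpartition S, ∃ A ⊆ P.parts, A.card = m₁ ∧ (∀ Y ∈ A, Y.card = n₁) ∧
    (P.parts \ A).card = m₂ ∧ (∀ Y ∈ P.parts \ A, Y.card = n₂) ∧
    ∀ X ⊆ S, max (p₁ X) (p₂ X) ≤ ((P.parts.filter fun Y => (Y ∩ X).Nonempty).card : ℤ)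

/-- The maximizing oracle: on the query `(i, F, t)` it tells whether the maximum over `X ⊆ S` of
`p_i X - |X ∩ F|` is at most `t`. -/
def maxOracle (S : Finset ℕ) (p₁ p₂ : Finset ℕ → ℤ) (q : Bool × List ℕ × ℕ) : Bool :=
  decide (∀ X ∈ S.powerset,
    (if q.1 then p₂ X else p₁ X) - ((X ∩ q.2.1.toFinset).card : ℤ) ≤ (q.2.2 : ℤ))

/-- The value oracle: on the query `(i, X)` it returns `p_i X`. -/
def valueOracle (p₁ p₂ : Finset ℕ → ℤ) (q : Bool × List ℕ) : ℤ :=
  if q.1 then p₂ q.2.toFinset else p₁ q.2.toFinset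

/-- The answers to the first `T` queries, each query being computed by `next` from the input and
the earlier answers. -/
def answers {X Q A : Type} (next : X × List A → Q) (O : Q → A) (x : X) : ℕ → List A
  | 0 => []
  | T + 1 => answers next O x T ++ [O (next (x, answers next O x T))]

/-- The oracle algorithm `(next, out)` with `T |S|` queries decides feasibility for all inputs
whose two functions lie in the class `C`. -/
def Decides {Q A : Type} (C : Finset ℕ → (Finset ℕ → ℤ) → Prop)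
    (O : Finset ℕ → (Finset ℕ → ℤ) → (Finset ℕ → ℤ) → Q → A)
    (next : (Finset ℕ × ℕ × ℕ × ℕ × ℕ) × List A → Q)
    (out : (Finset ℕ × ℕ × ℕ × ℕ × ℕ) × List A → Bool) (T : ℕ → ℕ) : Prop :=
  ∀ (S : Finset ℕ) (m₁ n₁ m₂ n₂ : ℕ) (p₁ p₂ : Finset ℕ → ℤ),
    0 < m₁ → 0 < n₁ → 0 < m₂ → 0 < n₂ → m₁ * n₁ + m₂ * n₂ = S.card → C S p₁ → C S p₂ →
    (∀ X ⊆ S, max (p₁ X) (p₂ X) ≤ min (X.card : ℤ) (m₁ + m₂ : ℕ)) →
    (out ((S, m₁, n₁, m₂, n₂), answers next (O S p₁ p₂) (S, m₁, n₁, m₂, n₂) (T S.card)) = true ↔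
      Feasible S m₁ n₁ m₂ n₂ p₁ p₂)

open Pool.Agent.MP_1195b1_lc Pool.Agent.PolyT

theorem answers_eq {X Q A : Type} (next : X × List A → Q) (O : Q → A) (x : X) (T : ℕ) :
    answers next O x T = ans next O x T := by
  induction T with
  | zero => rfl
  | succ T ih => simp only [answers, ans, ih]

theorem feasible_iff (I : Inst ℕ) (n₁ n₂ : ℕ) :
    Feas I n₁ n₂ ↔ Feasible I.S I.a n₁ I.b n₂ (I.p false) (I.p true) := by
  refine exists_congr fun P => exists_congr fun A => and_congr Iff.rfl <| and_congr Iff.rfl <|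
    and_congr Iff.rfl <| and_congr Iff.rfl <| and_congr Iff.rfl ?_
  simp only [Bool.forall_bool, max_le_iff, cnt]
  exact ⟨fun h X hX => ⟨h.1 X hX, h.2 X hX⟩, fun h => ⟨fun X hX => (h X hX).1,
    fun X hX => (h X hX).2⟩⟩

theorem value_eq (P : Bool → Finset ℕ → ℤ) :
    valueOracle (P false) (P true) = fun q => P q.1 q.2.toFinset := by
  funext ⟨i, L⟩
  cases i <;> rfl

/-- With the maximizing oracle the problem is polynomial. With the value oracle it is polynomial
for intersecting supermodular functions and needs exponentially many queries for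
skew-supermodular functions. -/
theorem result :
    (∃ next out, ∃ q : Polynomial ℕ, N68a2faeb.IsPolyTime next ∧ N68a2faeb.IsPolyTime out ∧
      Decides SkewSupermodular maxOracle next out (fun n => q.eval n)) ∧
    (∃ next out, ∃ q : Polynomial ℕ, N68a2faeb.IsPolyTime next ∧ N68a2faeb.IsPolyTime out ∧
      Decides IntersectingSupermodular (fun _ => valueOracle) next out (fun n => q.eval n)) ∧
    (∀ next out (T : ℕ → ℕ), Decides SkewSupermodular (fun _ => valueOracle) next out T →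
      ∀ k : ℕ, 1 ≤ k → 2 ^ k ≤ T (4 * k + 2)) := by
  refine ⟨?_, ?_, fun next out T h k hk => ?_⟩
  · obtain ⟨n, o, q, h1, h2, h3⟩ := max_model
    refine ⟨n, o, q, (poly_iff _).1 h1, (poly_iff _).1 h2,
      fun S m₁ n₁ m₂ n₂ p₁ p₂ _ a2 _ a4 a5 a6 a7 a8 => ?_⟩
    let I : Inst ℕ := ⟨S, fun i => bif i then p₂ else p₁, m₁, m₂⟩
    rw [answers_eq]
    refine (h3 I n₁ n₂ _ (fun i => ?_) a2 a4 a5 fun i L t => ?_).trans (feasible_iff I n₁ n₂)
    · cases i
      · exact ⟨a6, fun X hX => le_min_iff.1 ((le_max_left _ _).trans (a8 X hX))⟩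
      · exact ⟨a7, fun X hX => le_min_iff.1 ((le_max_right _ _).trans (a8 X hX))⟩
    · simp only [maxOracle, decide_eq_true_eq, Finset.mem_powerset, Low, I]
      refine forall₂_congr fun X _ => ?_
      cases i <;> simp [add_comm]
  · obtain ⟨n, o, q, h1, h2, h3⟩ := value_model
    refine ⟨n, o, q, (poly_iff _).1 h1, (poly_iff _).1 h2,
      fun S m₁ n₁ m₂ n₂ p₁ p₂ _ a2 _ a4 a5 a6 a7 a8 => ?_⟩
    let I : Inst ℕ := ⟨S, fun i => bif i then p₂ else p₁, m₁, m₂⟩
    beta_reduce
    rw [answers_eq, show valueOracle p₁ p₂ = _ from value_eq I.p]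
    refine (h3 I n₁ n₂ (fun i => ?_) a2 a4 a5).trans (feasible_iff I n₁ n₂)
    cases i
    · exact ⟨a6, fun X hX => le_min_iff.1 ((le_max_left _ _).trans (a8 X hX))⟩
    · exact ⟨a7, fun X hX => le_min_iff.1 ((le_max_right _ _).trans (a8 X hX))⟩
  · refine lower_model next out hk fun H hH => ?_
    have hI := hard_ok hH
    have := h (Finset.range (4 * k + 2)) 1 1 1 (4 * k + 1) ((hard k H).p false)
      ((hard k H).p true) one_pos one_pos one_pos (by omega) (hard_sum k H) (hI false).1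
      (hI true).1 fun X hX => max_le (le_min_iff.2 ((hI false).2 X hX))
        (le_min_iff.2 ((hI true).2 X hX))
    beta_reduce at this
    rw [answers_eq, value_eq, Finset.card_range] at this
    exact this.trans (feasible_iff (hard k H) 1 (4 * k + 1)).symm

end Pool.Agent.Results.MP_1195b1_lc.OracleModels
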